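import Pool.Agent.Q296.AH.Final

/-! # Deleting an element and average heights in a poset

There are a finite poset `P` with `n = 1050` elements and `x ∈ P` with
`∑_{y ≠ x} max (h_P y - h_{P-x} y) 0 > n - 1`. -/

namespace Pool.Agent.Results.MP_693840_co.DeletionSumExceeds

open Finset Pool.Agent.Q296.AH

/-- A linear extension of `α`: an order-preserving bijection from `α` to `Fin n`
(positions `0, …, n-1`), where `n` is the number of elements of `α`. -/
abbrev LinExt (α : Type) [PartialOrder α] [Fintype α] : Type :=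
  {f : α ≃ Fin (Fintype.card α) // ∀ u v, u < v → f u < f v}

/-- The average height of `y` in the poset `α`: the average, over all linear extensions `f`,
of the position `f y + 1 ∈ {1, …, n}`. -/
noncomputable def avgHeight (α : Type) [PartialOrder α] [Fintype α] (y : α) : ℚ :=
  (∑ f : LinExt α, (((f.1 y).1 : ℚ) + 1)) / Fintype.card (LinExt α)

lemma avgHeight_eq (α : Type) [PartialOrder α] [Fintype α] (n : ℕ) (h : Fintype.card α = n) (y : α) :
    avgHeight α y = avg α n y := by
  subst h
  unfold avgHeight avg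
  rfl

theorem result : ∃ (α : Type) (_ : PartialOrder α) (_ : Fintype α) (_ : DecidableEq α) (x : α),
    Fintype.card α = 1050 ∧
    (Fintype.card α : ℚ) - 1 <
      ∑ y : {y : α // y ≠ x}, max (avgHeight α y.1 - avgHeight {y : α // y ≠ x} y) 0 := by
  refine ⟨Pt 1018 30 55, inferInstance, inferInstance, inferInstance, Pt.x, ?_, ?_⟩
  · rw [card_Pt]
  · have hc : Fintype.card (Pt 1018 30 55) = 30 + 1 + (1018 + 1) := card_Pt _ _ _
    have hc' : Fintype.card {y : Pt 1018 30 55 // y ≠ Pt.x} = 30 + 1 + 1018 := by
      rw [Fintype.card_congr (pxEquiv 1018 30 55)]; simp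
    have hnum := numeric
    have h := lower (l := 1018) (m := 30) (j := 55) (by norm_num) (by norm_num) hnum.1 hnum.2.1
      hnum.2.2
    rw [hc]
    refine lt_of_lt_of_le h ?_
    rw [← Equiv.sum_comp (pxEquiv 1018 30 55).symm, Fintype.sum_sum_type]
    have h1 : (0 : ℚ) ≤ ∑ a : Fin (30 + 1), max (avgHeight (Pt 1018 30 55)
        ((pxEquiv 1018 30 55).symm (Sum.inl a)).1 -
        avgHeight {y : Pt 1018 30 55 // y ≠ Pt.x} ((pxEquiv 1018 30 55).symm (Sum.inl a))) 0 :=
      sum_nonneg (fun a _ => le_max_right _ _)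
    refine le_trans ?_ (le_add_of_nonneg_left h1)
    apply sum_le_sum
    intro k _
    rw [avgHeight_eq _ _ hc, avgHeight_eq _ _ hc', pxEquiv_symm_inr]
    exact le_max_left _ _

end Pool.Agent.Results.MP_693840_co.DeletionSumExceeds
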